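import Mathlib

set_option autoImplicit false
set_option linter.unusedSectionVars false

open Filter Topology MeasureTheory Metric
open scoped Convolution

namespace Pool.Agent.H.MP_dca26c_an

section LL

variable {V : Type} [NormedAddCommGroup V] [InnerProductSpace ℝ V]

lemma par (a b : V) : ‖a + b‖ ^ 2 + ‖a - b‖ ^ 2 = 2 * ‖a‖ ^ 2 + 2 * ‖b‖ ^ 2 := by
  have := parallelogram_law_with_norm ℝ a b
  linarith

noncomputable def phi (Z : Set V) (μ : ℝ) (y : V) : ℝ := min (1 / 2) (infDist y Z ^ 2 / (4 * μ))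

noncomputable def ll (Z : Set V) (μ : ℝ) (x : V) : ℝ := ⨆ y, (phi Z μ y - ‖x - y‖ ^ 2 / (2 * μ))

variable {Z : Set V} {μ : ℝ}

lemma phi_le (y : V) : phi Z μ y ≤ 1 / 2 := min_le_left _ _

lemma phi_nonneg (hμ : 0 < μ) (y : V) : 0 ≤ phi Z μ y := by unfold phi; positivity

lemma phi_le_of_mem (hμ : 0 < μ) (y : V) {z : V} (hz : z ∈ Z) :
    phi Z μ y ≤ ‖y - z‖ ^ 2 / (4 * μ) := by
  refine le_trans (min_le_right _ _) ?_
  have h1 := infDist_le_dist_of_mem (x := y) hz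
  rw [dist_eq_norm] at h1
  have h2 := infDist_nonneg (x := y) (s := Z)
  gcongr

lemma phi_conc (hμ : 0 < μ) (hZ : IsCompact Z) (hne : Z.Nonempty) (y k : V) :
    phi Z μ (y + k) + phi Z μ (y - k) ≤ 2 * phi Z μ y + ‖k‖ ^ 2 / (2 * μ) := by
  rcases le_total (1 / 2) (infDist y Z ^ 2 / (4 * μ)) with h | h
  · have h1 : phi Z μ y = 1 / 2 := min_eq_left h
    have h2 := phi_le (Z := Z) (μ := μ) (y + k)
    have h3 := phi_le (Z := Z) (μ := μ) (y - k)
    have h4 : 0 ≤ ‖k‖ ^ 2 / (2 * μ) := by positivity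
    linarith
  · have h1 : phi Z μ y = infDist y Z ^ 2 / (4 * μ) := min_eq_right h
    obtain ⟨z, hz, hd⟩ := hZ.exists_infDist_eq_dist hne y
    have h2 := phi_le_of_mem hμ (y + k) hz
    have h3 := phi_le_of_mem hμ (y - k) hz
    have h4 := par (y - z) k
    rw [show y - z + k = y + k - z by abel, show y - z - k = y - k - z by abel] at h4
    rw [h1, hd, dist_eq_norm]
    have h5 : ‖y + k - z‖ ^ 2 / (4 * μ) + ‖y - k - z‖ ^ 2 / (4 * μ)
        = 2 * (‖y - z‖ ^ 2 / (4 * μ)) + ‖k‖ ^ 2 / (2 * μ) := by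
      field_simp; linarith
    linarith

lemma ll_bdd (hμ : 0 < μ) (x : V) :
    BddAbove (Set.range fun y => phi Z μ y - ‖x - y‖ ^ 2 / (2 * μ)) := by
  refine ⟨1 / 2, ?_⟩
  rintro _ ⟨y, rfl⟩
  have h1 := phi_le (Z := Z) (μ := μ) y
  have h4 : 0 ≤ ‖x - y‖ ^ 2 / (2 * μ) := by positivity
  simp only; linarith

lemma le_ll (hμ : 0 < μ) (x y : V) : phi Z μ y - ‖x - y‖ ^ 2 / (2 * μ) ≤ ll Z μ x :=
  le_ciSup (ll_bdd hμ x) y

lemma phi_le_ll (hμ : 0 < μ) (x : V) : phi Z μ x ≤ ll Z μ x := by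
  simpa using le_ll (Z := Z) hμ x x

lemma ll_nonneg (hμ : 0 < μ) (x : V) : 0 ≤ ll Z μ x :=
  le_trans (phi_nonneg hμ x) (phi_le_ll hμ x)

lemma ll_le (hμ : 0 < μ) (x : V) : ll Z μ x ≤ 1 / 2 := by
  refine ciSup_le fun y => ?_
  have h1 := phi_le (Z := Z) (μ := μ) y
  have h4 : 0 ≤ ‖x - y‖ ^ 2 / (2 * μ) := by positivity
  linarith

lemma ll_zero (hμ : 0 < μ) {x : V} (hx : x ∈ Z) : ll Z μ x = 0 := by
  refine le_antisymm (ciSup_le fun y => ?_) (ll_nonneg hμ x)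
  have h1 := phi_le_of_mem hμ y hx
  rw [norm_sub_rev] at h1
  have h2 : ‖x - y‖ ^ 2 / (4 * μ) ≤ ‖x - y‖ ^ 2 / (2 * μ) := by gcongr; norm_num
  linarith

lemma ll_low (hμ : 0 < μ) (x h : V) :
    2 * ll Z μ x - ‖h‖ ^ 2 / μ ≤ ll Z μ (x + h) + ll Z μ (x - h) := by
  have : ll Z μ x ≤ (ll Z μ (x + h) + ll Z μ (x - h) + ‖h‖ ^ 2 / μ) / 2 := by
    refine ciSup_le fun y => ?_
    have h1 := le_ll (Z := Z) hμ (x + h) y
    have h2 := le_ll (Z := Z) hμ (x - h) y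
    have h4 := par (x - y) h
    rw [show x - y + h = x + h - y by abel, show x - y - h = x - h - y by abel] at h4
    have h5 : ‖x + h - y‖ ^ 2 / (2 * μ) + ‖x - h - y‖ ^ 2 / (2 * μ)
        = 2 * (‖x - y‖ ^ 2 / (2 * μ)) + ‖h‖ ^ 2 / μ := by
      field_simp; linarith
    linarith
  linarith

lemma ll_up (hμ : 0 < μ) (hZ : IsCompact Z) (hne : Z.Nonempty) (x h : V) :
    ll Z μ (x + h) + ll Z μ (x - h) ≤ 2 * ll Z μ x + ‖h‖ ^ 2 / μ := by
  have : ll Z μ (x + h) ≤ 2 * ll Z μ x + ‖h‖ ^ 2 / μ - ll Z μ (x - h) := by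
    refine ciSup_le fun y1 => ?_
    have : ll Z μ (x - h) ≤ 2 * ll Z μ x + ‖h‖ ^ 2 / μ
        - (phi Z μ y1 - ‖x + h - y1‖ ^ 2 / (2 * μ)) := by
      refine ciSup_le fun y2 => ?_
      set y := (1 / 2 : ℝ) • (y1 + y2) with hy
      set k := (1 / 2 : ℝ) • (y1 - y2) with hk
      have e1 : y1 = y + k := by rw [hy, hk]; module
      have e2 : y2 = y - k := by rw [hy, hk]; module
      have h1 := phi_conc hμ hZ hne y k
      rw [← e1, ← e2] at h1
      have h2 := le_ll (Z := Z) hμ x y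
      have h3 := par (x - y) (h - k)
      rw [show x - y + (h - k) = x + h - y1 by rw [e1]; abel,
        show x - y - (h - k) = x - h - y2 by rw [e2]; abel] at h3
      have h4 := par h (h - k)
      rw [sub_sub_cancel] at h4
      have h6 := sq_nonneg ‖h + (h - k)‖
      have h5 : ‖k‖ ^ 2 / (2 * μ) + 2 * (‖x - y‖ ^ 2 / (2 * μ)) ≤ ‖h‖ ^ 2 / μ +
          ‖x + h - y1‖ ^ 2 / (2 * μ) + ‖x - h - y2‖ ^ 2 / (2 * μ) := by
        rw [← sub_nonneg]
        have : ‖h‖ ^ 2 / μ + ‖x + h - y1‖ ^ 2 / (2 * μ) + ‖x - h - y2‖ ^ 2 / (2 * μ)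
            - (‖k‖ ^ 2 / (2 * μ) + 2 * (‖x - y‖ ^ 2 / (2 * μ)))
            = (2 * ‖h‖ ^ 2 + ‖x + h - y1‖ ^ 2 + ‖x - h - y2‖ ^ 2 - ‖k‖ ^ 2 - 2 * ‖x - y‖ ^ 2)
              / (2 * μ) := by field_simp; ring
        rw [this]
        apply div_nonneg _ (by positivity)
        linarith
      linarith
    linarith
  linarith

lemma ll_lsc (hμ : 0 < μ) : LowerSemicontinuous (ll Z μ) :=
  lowerSemicontinuous_ciSup (ll_bdd hμ) fun y => Continuous.lowerSemicontinuous (by fun_prop)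

/-- first order Taylor bound from second differences -/
lemma taylor {F : V → ℝ} (hF : Differentiable ℝ F) (hμ : 0 < μ)
    (h2 : ∀ x h, |F (x + h) + F (x - h) - 2 * F x| ≤ ‖h‖ ^ 2 / μ) (x v : V) :
    |F (x + v) - F x - fderiv ℝ F x v| ≤ ‖v‖ ^ 2 / (2 * μ) := by
  have key : ∀ k : ℕ, |F (x + v) - F x - (2 : ℝ) ^ k • (F (x + ((2 : ℝ) ^ k)⁻¹ • v) - F x)|
      ≤ (1 - ((2 : ℝ) ^ k)⁻¹) * (‖v‖ ^ 2 / (2 * μ)) := by
    intro k
    induction k with
    | zero => simp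
    | succ k ih =>
      have hp : (0 : ℝ) < 2 ^ k := by positivity
      have h3 := h2 (x + ((2 : ℝ) ^ (k + 1))⁻¹ • v) (((2 : ℝ) ^ (k + 1))⁻¹ • v)
      have e1 : x + ((2 : ℝ) ^ (k + 1))⁻¹ • v + ((2 : ℝ) ^ (k + 1))⁻¹ • v
          = x + ((2 : ℝ) ^ k)⁻¹ • v := by
        rw [add_assoc, ← add_smul]
        congr 2
        rw [pow_succ]; field_simp; norm_num
      rw [e1, add_sub_cancel_right, norm_smul, Real.norm_of_nonneg (by positivity)] at h3
      have e2 : 2 ^ k * ((((2 : ℝ) ^ (k + 1))⁻¹ * ‖v‖) ^ 2 / μ)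
          = ((2 : ℝ) ^ (k + 1))⁻¹ * (‖v‖ ^ 2 / (2 * μ)) := by
        field_simp; ring
      have h4 := mul_le_mul_of_nonneg_left h3 hp.le
      rw [e2, ← abs_of_pos hp, ← abs_mul, abs_of_pos hp] at h4
      have e3 : ((2 : ℝ) ^ k)⁻¹ = 2 * ((2 : ℝ) ^ (k + 1))⁻¹ := by rw [pow_succ]; field_simp
      simp only [smul_eq_mul] at ih ⊢
      rw [abs_le] at ih h4 ⊢
      rw [pow_succ (2 : ℝ) k] at *
      constructor
      · nlinarith [ih.1, h4.1]
      · nlinarith [ih.2, h4.2]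
  have hl := (hF x).hasFDerivAt.lim v (c := fun k : ℕ => (2 : ℝ) ^ k) (l := atTop) (by
    simpa using tendsto_pow_atTop_atTop_of_one_lt (by norm_num : (1 : ℝ) < 2))
  refine le_of_tendsto' ((tendsto_const_nhds.sub hl).abs) fun k => le_trans (key k) ?_
  have h5 : 0 ≤ ‖v‖ ^ 2 / (2 * μ) := by positivity
  have h6 : 0 ≤ ((2 : ℝ) ^ k)⁻¹ := by positivity
  nlinarith

lemma grad_lip {F : V → ℝ} (hμ : 0 < μ)
    (ht : ∀ x v, |F (x + v) - F x - fderiv ℝ F x v| ≤ ‖v‖ ^ 2 / (2 * μ)) (θ : V) (hθ : ‖θ‖ = 1)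
    (x y : V) : fderiv ℝ F x θ - fderiv ℝ F y θ ≤ μ⁻¹ * ‖x - y‖ := by
  rcases eq_or_ne x y with rfl | hne
  · simp
  have hr : 0 < ‖x - y‖ := norm_pos_iff.mpr (sub_ne_zero.mpr hne)
  set r := ‖x - y‖ with hrr
  set u := (1 / 2 : ℝ) • (y - x) with hu
  set w := (r / 2) • θ with hw
  have nu : ‖u‖ = r / 2 := by
    rw [hu, norm_smul, norm_sub_rev, ← hrr, Real.norm_of_nonneg (by norm_num)]; ring
  have nw : ‖w‖ = r / 2 := by
    rw [hw, norm_smul, hθ, Real.norm_of_nonneg (by positivity), mul_one]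
  have h1 := (abs_le.mp (ht x (u + w))).1
  have h2 := (abs_le.mp (ht y (w - u))).2
  have h3 := (abs_le.mp (ht x (u - w))).2
  have h4 := (abs_le.mp (ht y (-(u + w)))).1
  have e1 : y + (w - u) = x + (u + w) := by rw [hu]; module
  have e2 : y + -(u + w) = x + (u - w) := by rw [hu]; module
  rw [e1, norm_sub_rev] at h2
  rw [e2, norm_neg] at h4
  have h5 := par u w
  rw [nu, nw] at h5
  simp only [map_add, map_sub, map_neg] at h1 h2 h3 h4
  have e3 : ∀ z, fderiv ℝ F z w = r / 2 * fderiv ℝ F z θ := fun z => by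
    rw [hw, map_smul, smul_eq_mul]
  rw [e3] at h1 h2 h3 h4
  have e4 : 2 * (‖u + w‖ ^ 2 / (2 * μ) + ‖u - w‖ ^ 2 / (2 * μ)) = r * (μ⁻¹ * r) := by
    field_simp; linarith
  have h6 : r * (fderiv ℝ F x θ - fderiv ℝ F y θ) ≤ r * (μ⁻¹ * r) := by linarith
  exact le_of_mul_le_mul_left h6 hr

lemma grad_bound {F : V → ℝ} (hμ : 0 < μ)
    (ht : ∀ x v, |F (x + v) - F x - fderiv ℝ F x v| ≤ ‖v‖ ^ 2 / (2 * μ))
    (h0 : ∀ x, 0 ≤ F x) (h1 : ∀ x, F x ≤ 1 / 2) (x : V) :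
    ‖fderiv ℝ F x‖ ≤ (Real.sqrt μ)⁻¹ := by
  have hs : 0 < Real.sqrt μ := Real.sqrt_pos.mpr hμ
  have key : ∀ θ : V, ‖θ‖ = 1 → fderiv ℝ F x θ ≤ (Real.sqrt μ)⁻¹ := by
    intro θ hθ
    have a1 := (abs_le.mp (ht x (Real.sqrt μ • θ))).1
    rw [norm_smul, hθ, mul_one, Real.norm_of_nonneg hs.le, Real.sq_sqrt hμ.le, map_smul,
      smul_eq_mul] at a1
    have e : μ / (2 * μ) = 1 / 2 := by field_simp
    rw [e] at a1
    have a2 := h0 x
    have a3 := h1 (x + Real.sqrt μ • θ)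
    rw [← one_div, le_div_iff₀ hs]
    linarith
  refine ContinuousLinearMap.opNorm_le_of_unit_norm (by positivity) fun θ hθ => ?_
  rw [Real.norm_eq_abs, abs_le]
  refine ⟨?_, key θ hθ⟩
  have := key (-θ) (by rw [norm_neg, hθ])
  rw [map_neg] at this
  linarith

variable [FiniteDimensional ℝ V] [MeasurableSpace V] [BorelSpace V]

theorem exists_smooth (hμ : 0 < μ) (hZ : IsCompact Z) (hne : Z.Nonempty) (ε : ℝ) (hε : 0 < ε) :
    ∃ F : V → ℝ, ContDiff ℝ 2 F ∧ (∀ x, 0 ≤ F x) ∧ (∀ x, F x ≤ 1 / 2) ∧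
      (∀ x h, |F (x + h) + F (x - h) - 2 * F x| ≤ ‖h‖ ^ 2 / μ) ∧
      (∀ x, ball x ε ⊆ Z → F x = 0) ∧
      ∀ x m, (∀ y ∈ ball x ε, m ≤ phi Z μ y) → m ≤ F x := by
  let b : ContDiffBump (0 : V) := ⟨ε / 2, ε, by positivity, by linarith⟩
  let ρ := b.normed (volume : Measure V)
  have hmeas : Measurable (ll Z μ) := (ll_lsc hμ).measurable
  have hbd : ∀ x, ‖ll Z μ x‖ ≤ 1 / 2 := fun x => by
    rw [Real.norm_of_nonneg (ll_nonneg hμ x)]; exact ll_le hμ x
  have hloc : LocallyIntegrable (ll Z μ) volume := by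
    refine (locallyIntegrable_const (1 / 2 : ℝ)).mono hmeas.aestronglyMeasurable
      (Eventually.of_forall fun x => ?_)
    rw [Real.norm_of_nonneg (by norm_num : (0 : ℝ) ≤ 1 / 2)]; exact hbd x
  have hρi : Integrable ρ volume := b.integrable_normed
  have hρ0 : ∀ t, 0 ≤ ρ t := b.nonneg_normed
  have hρ1 : ∫ t, ρ t = 1 := b.integral_normed
  have hρs : ∀ t, t ∉ ball (0 : V) ε → ρ t = 0 := fun t ht => by
    have := b.support_normed_eq (μ := (volume : Measure V))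
    by_contra h
    exact ht (this ▸ (show t ∈ Function.support ρ from h))
  have hint : ∀ x, Integrable (fun t => ρ t * ll Z μ (x - t)) volume := fun x =>
    hρi.mul_bdd (c := 1 / 2) (hmeas.comp (by fun_prop)).aestronglyMeasurable
      (Eventually.of_forall fun t => hbd _)
  have hF : ∀ x, (ρ ⋆[ContinuousLinearMap.lsmul ℝ ℝ, volume] ll Z μ) x
      = ∫ t, ρ t * ll Z μ (x - t) := fun x => rfl
  have hconst : ∀ m : ℝ, ∫ t, ρ t * m = m := fun m => by rw [integral_mul_const, hρ1, one_mul]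
  have hge : ∀ x m, (∀ y ∈ ball x ε, m ≤ ll Z μ y) → m ≤ ∫ t, ρ t * ll Z μ (x - t) := by
    intro x m hm
    rw [← hconst m]
    refine integral_mono (hρi.mul_const m) (hint x) fun t => ?_
    by_cases ht : t ∈ ball (0 : V) ε
    · exact mul_le_mul_of_nonneg_left (hm _ (by simpa using ht)) (hρ0 t)
    · simp [hρs t ht]
  have hle : ∀ x m, (∀ y ∈ ball x ε, ll Z μ y ≤ m) → ∫ t, ρ t * ll Z μ (x - t) ≤ m := by
    intro x m hm
    rw [← hconst m]
    refine integral_mono (hint x) (hρi.mul_const m) fun t => ?_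
    by_cases ht : t ∈ ball (0 : V) ε
    · exact mul_le_mul_of_nonneg_left (hm _ (by simpa using ht)) (hρ0 t)
    · simp [hρs t ht]
  refine ⟨ρ ⋆[ContinuousLinearMap.lsmul ℝ ℝ, volume] ll Z μ,
    b.hasCompactSupport_normed.contDiff_convolution_left (n := 2) _ b.contDiff_normed hloc,
    fun x => hge x 0 fun y _ => ll_nonneg hμ y, fun x => hle x _ fun y _ => ll_le hμ y,
    fun x h => ?_, fun x hx => ?_, fun x m hm => ?_⟩
  · have hi0 : Integrable (fun t => ρ t * ll Z μ (x + h - t) + ρ t * ll Z μ (x - h - t)) volume :=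
      (hint _).add (hint _)
    rw [hF, hF, hF, ← integral_add (hint _) (hint _), ← integral_const_mul,
      ← integral_sub hi0 ((hint _).const_mul 2), abs_le]
    have hi : Integrable (fun t => ρ t * ll Z μ (x + h - t) + ρ t * ll Z μ (x - h - t)
        - 2 * (ρ t * ll Z μ (x - t))) volume :=
      ((hint _).add (hint _)).sub ((hint _).const_mul 2)
    constructor
    · rw [← hconst (-(‖h‖ ^ 2 / μ))]
      refine integral_mono (hρi.mul_const _) hi fun t => ?_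
      have := ll_low (Z := Z) hμ (x - t) h
      rw [show x - t + h = x + h - t by abel, show x - t - h = x - h - t by abel] at this
      have := mul_le_mul_of_nonneg_left this (hρ0 t)
      simp only; linarith
    · rw [← hconst (‖h‖ ^ 2 / μ)]
      refine integral_mono hi (hρi.mul_const _) fun t => ?_
      have := ll_up hμ hZ hne (x - t) h
      rw [show x - t + h = x + h - t by abel, show x - t - h = x - h - t by abel] at this
      have := mul_le_mul_of_nonneg_left this (hρ0 t)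
      simp only; linarith
  · exact le_antisymm (hle x 0 fun y hy => (ll_zero hμ (hx hy)).le)
      (hge x 0 fun y _ => ll_nonneg hμ y)
  · exact hge x m fun y hy => le_trans (hm y hy) (phi_le_ll hμ y)

lemma vol_ball (b R : ℝ) (hb : 0 < b) (x : V) :
    (volume : Measure V).real (ball x R) ≤
      Real.exp (b * R ^ 2) * (Real.pi / b) ^ (Module.finrank ℝ V / 2 : ℝ) := by
  rw [Measure.addHaar_real_ball_center, ← GaussianFourier.integral_rexp_neg_mul_sq_norm hb]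
  have hi : Integrable (fun v : V => Real.exp (-b * ‖v‖ ^ 2)) := by
    apply Integrable.of_integral_ne_zero
    rw [GaussianFourier.integral_rexp_neg_mul_sq_norm hb]
    positivity
  have h1 := setIntegral_ge_of_const_le_real (μ := (volume : Measure V)) (s := ball (0 : V) R)
    (f := fun v : V => Real.exp (-b * ‖v‖ ^ 2)) (c := Real.exp (-b * R ^ 2)) measurableSet_ball
    measure_ball_lt_top.ne (fun v hv => by
      have h2 : ‖v‖ < R := by simpa using hv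
      have h3 : ‖v‖ ^ 2 ≤ R ^ 2 := by gcongr
      exact Real.exp_le_exp.mpr (by nlinarith)) hi.integrableOn
  have h2 := setIntegral_le_integral (s := ball (0 : V) R) hi
    (Eventually.of_forall fun v => (Real.exp_pos _).le)
  have h3 := mul_le_mul_of_nonneg_left (le_trans h1 h2) (Real.exp_pos (b * R ^ 2)).le
  rw [← mul_assoc, ← Real.exp_add] at h3
  simpa using h3

end LL

lemma num (d n : ℕ) (hd : 1 ≤ d) (hn : 1 ≤ n) (t : ℝ) (ht : t = (n : ℝ) ^ (-(2 : ℝ) / (d : ℝ))) :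
    (n : ℝ) * (Real.exp (50 / t * (d * t / 100)) * (Real.pi / (50 / t)) ^ ((d : ℝ) / 2)) ≤ 1 / 2 := by
  have n0 : (0 : ℝ) < n := by exact_mod_cast hn
  have d0 : (1 : ℝ) ≤ d := by exact_mod_cast hd
  have t0 : 0 < t := by rw [ht]; positivity
  have e1 : 50 / t * (d * t / 100) = 1 * ((d : ℝ) / 2) := by field_simp; norm_num
  have e2 : Real.pi / (50 / t) = Real.pi / 50 * t := by field_simp
  have e3 : t ^ ((d : ℝ) / 2) = (n : ℝ)⁻¹ := by
    rw [ht, ← Real.rpow_mul n0.le, ← Real.rpow_neg_one]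
    congr 1; field_simp
  rw [e1, Real.exp_mul, e2, Real.mul_rpow (by positivity) t0.le, e3, ← mul_assoc (Real.exp 1 ^ _),
    ← Real.mul_rpow (by positivity) (by positivity)]
  have e4 : Real.exp 1 * (Real.pi / 50) ≤ 1 / 4 := by
    have := Real.exp_one_lt_d9
    have := Real.pi_lt_four
    have := Real.pi_pos
    nlinarith
  have e5 : (Real.exp 1 * (Real.pi / 50)) ^ ((d : ℝ) / 2) ≤ (1 / 4 : ℝ) ^ ((d : ℝ) / 2) :=
    Real.rpow_le_rpow (by positivity) e4 (by positivity)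
  have e6 : (1 / 4 : ℝ) ^ ((d : ℝ) / 2) ≤ (1 / 4 : ℝ) ^ (1 / 2 : ℝ) :=
    Real.rpow_le_rpow_of_exponent_ge (by norm_num) (by norm_num) (by linarith)
  have e7 : (1 / 4 : ℝ) ^ (1 / 2 : ℝ) = 1 / 2 := by
    rw [← Real.sqrt_eq_rpow, show (1 / 4 : ℝ) = (1 / 2) ^ 2 by norm_num, Real.sqrt_sq (by norm_num)]
  have e8 : (n : ℝ) * ((Real.exp 1 * (Real.pi / 50)) ^ ((d : ℝ) / 2) * (n : ℝ)⁻¹)
      = (Real.exp 1 * (Real.pi / 50)) ^ ((d : ℝ) / 2) := by field_simp
  rw [e8]; linarith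

end Pool.Agent.H.MP_dca26c_an
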